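import Pool.Agent.MP_993212_an.H46.Fin

/-! Strong shift equivalence over the nonnegative integers is decidable (matrices of positive
size, the chain being the equivalence relation generated by the elementary equivalences). -/

namespace Pool.Agent.Results.MP_993212_an.Decidable

open Matrix

/-- one step between matrices of any size -/
abbrev St (X Y : Σ n : ℕ, Matrix (Fin n) (Fin n) ℕ) : Prop :=
  ∃ R : Matrix (Fin X.1) (Fin Y.1) ℕ, ∃ S : Matrix (Fin Y.1) (Fin X.1) ℕ, X.2 = R * S ∧ Y.2 = S * R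

/-- one step between matrices of positive size -/
abbrev Sp (X Y : Σ k : ℕ, Matrix (Fin (k + 1)) (Fin (k + 1)) ℕ) : Prop :=
  ∃ (R : Matrix (Fin (X.1 + 1)) (Fin (Y.1 + 1)) ℕ) (S : Matrix (Fin (Y.1 + 1)) (Fin (X.1 + 1)) ℕ),
    X.2 = R * S ∧ Y.2 = S * R

/-- the empty matrix is replaced by the zero matrix of size one -/
def up : (Σ n : ℕ, Matrix (Fin n) (Fin n) ℕ) → Σ k : ℕ, Matrix (Fin (k + 1)) (Fin (k + 1)) ℕ
  | ⟨0, _⟩ => ⟨0, 0⟩
  | ⟨k + 1, A⟩ => ⟨k, A⟩

theorem sp_up : ∀ X Y, St X Y → Sp (up X) (up Y)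
  | ⟨0, _⟩, ⟨0, _⟩, _ => ⟨0, 0, (Matrix.zero_mul _).symm, (Matrix.zero_mul _).symm⟩
  | ⟨0, _⟩, ⟨k + 1, B⟩, ⟨R, S, _, h⟩ => ⟨0, 0, (Matrix.zero_mul _).symm, by
      have : B = 0 := by rw [show B = S * R from h]; ext i j; simp [mul_apply]
      exact this.trans (Matrix.zero_mul _).symm⟩
  | ⟨k + 1, A⟩, ⟨0, _⟩, ⟨R, S, h, _⟩ => ⟨0, 0, by
      have : A = 0 := by rw [show A = R * S from h]; ext i j; simp [mul_apply]
      exact this.trans (Matrix.zero_mul _).symm, (Matrix.zero_mul _).symm⟩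
  | ⟨_ + 1, _⟩, ⟨_ + 1, _⟩, h => h

theorem chain (X Y : Σ k : ℕ, Matrix (Fin (k + 1)) (Fin (k + 1)) ℕ) :
    Relation.TransGen St ⟨X.1 + 1, X.2⟩ ⟨Y.1 + 1, Y.2⟩ ↔ Relation.EqvGen Sp X Y := by
  constructor
  · intro h
    have : ∀ U V, Relation.TransGen St U V → Relation.EqvGen Sp (up U) (up V) := fun U V h => by
      induction h with
      | single h => exact .rel _ _ (sp_up _ _ h)
      | tail _ h ih => exact .trans _ _ _ ih (.rel _ _ (sp_up _ _ h))
    exact this _ _ h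
  · intro h
    have sy : ∀ U V, Relation.TransGen St U V → Relation.TransGen St V U := fun U V h => by
      induction h with
      | single h => obtain ⟨R, S, a, b⟩ := h; exact .single ⟨S, R, b, a⟩
      | tail _ h ih => obtain ⟨R, S, a, b⟩ := h; exact .head ⟨S, R, b, a⟩ ih
    induction h with
    | rel _ _ h => exact .single h
    | refl X => exact .single ⟨X.2, 1, by simp, by simp⟩
    | symm _ _ _ ih => exact sy _ _ ih
    | trans _ _ _ _ _ a b => exact a.trans b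

theorem code (n : ℕ) (A : Matrix (Fin n) (Fin n) ℕ) :
    (⟨(List.ofFn fun i => List.ofFn fun j => A i j).length, Matrix.of fun i j =>
      ((List.ofFn fun i => List.ofFn fun j => A i j).getD (i : ℕ) []).getD (j : ℕ) 0⟩ :
      Σ n : ℕ, Matrix (Fin n) (Fin n) ℕ) = ⟨n, A⟩ := by
  have : ∀ (L : List (List ℕ)) (h : L.length = n),
      (∀ i j : Fin n, (L.getD (i : ℕ) []).getD (j : ℕ) 0 = A i j) →
      (⟨L.length, Matrix.of fun i j => (L.getD (i : ℕ) []).getD (j : ℕ) 0⟩ :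
        Σ n : ℕ, Matrix (Fin n) (Fin n) ℕ) = ⟨n, A⟩ := by
    intro L h e
    subst h
    congr 1
    ext i j
    exact e i j
  exact this _ (by simp) fun i j => by simp

theorem result : ∃ f : List (List ℕ) × List (List ℕ) → Bool, Computable f ∧
    ∀ (n m : ℕ) (A : Matrix (Fin (n + 1)) (Fin (n + 1)) ℕ)
      (B : Matrix (Fin (m + 1)) (Fin (m + 1)) ℕ),
      f (List.ofFn fun i => List.ofFn fun j => A i j,
          List.ofFn fun i => List.ofFn fun j => B i j) = true ↔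
        Relation.EqvGen
          (fun X Y : (Σ k : ℕ, Matrix (Fin (k + 1)) (Fin (k + 1)) ℕ) =>
            ∃ (R : Matrix (Fin (X.1 + 1)) (Fin (Y.1 + 1)) ℕ)
              (S : Matrix (Fin (Y.1 + 1)) (Fin (X.1 + 1)) ℕ), X.2 = R * S ∧ Y.2 = S * R)
          ⟨n, A⟩ ⟨m, B⟩ := by
  obtain ⟨f, hf, e⟩ := ComputablePred.computable_iff.1 Pool.Agent.MP_993212_an.H46.goal
  refine ⟨f, hf, fun n m A B => ?_⟩
  rw [← chain ⟨n, A⟩ ⟨m, B⟩, ← code (n + 1) A, ← code (m + 1) B]
  exact (iff_of_eq (congrFun e _)).symm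

end Pool.Agent.Results.MP_993212_an.Decidable
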