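import Pool.Agent.MP_993212_an.H57.Int

namespace Pool.Agent.Results.MP_993212_an.StableWilliams

/-- For irreducible nonnegative integer matrices `A`, `B` of positive trace and `p ≥ 2`, the
matrices `p ^ j • A` and `p ^ j • B` are strong shift equivalent over the nonnegative integers for
some `j` if and only if `A` and `B` are shift equivalent after inverting `p`. -/
theorem result {n m : ℕ} (p : ℕ) (hp : 2 ≤ p) (A : Matrix (Fin n) (Fin n) ℕ)
    (B : Matrix (Fin m) (Fin m) ℕ) (hA : ∀ i j, ∃ k : ℕ, 0 < (A ^ k) i j)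
    (hB : ∀ i j, ∃ k : ℕ, 0 < (B ^ k) i j) (tA : 0 < A.trace) (tB : 0 < B.trace) :
    (∃ j : ℕ, Relation.TransGen
        (fun X Y : (Σ n : ℕ, Matrix (Fin n) (Fin n) ℕ) =>
          ∃ R : Matrix (Fin X.1) (Fin Y.1) ℕ, ∃ S : Matrix (Fin Y.1) (Fin X.1) ℕ,
            X.2 = R * S ∧ Y.2 = S * R) ⟨n, p ^ j • A⟩ ⟨m, p ^ j • B⟩) ↔
      ∃ (l e : ℕ) (R : Matrix (Fin n) (Fin m) ℕ) (S : Matrix (Fin m) (Fin n) ℕ),
        1 ≤ l ∧ p ^ e • A ^ l = R * S ∧ p ^ e • B ^ l = S * R ∧ A * R = R * B ∧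
          S * A = B * S := by
  rw [← Pool.Agent.MP_993212_an.H57.stable hp hA hB tA tB]
  exact exists_congr fun j => (Pool.Agent.MP_993212_an.H12.sse_iff _ _).symm

end Pool.Agent.Results.MP_993212_an.StableWilliams
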