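import Pool.Agent.MP_993212_an.H18.WPer

namespace Pool.Agent.Results.MP_993212_an.WilliamsAllPeriods

/-- If every component of the graph of `A` is a single orbit or carries periodic points of least
period `k * p` for all `k ≥ 2`, where `p` is its period, then every shift equivalence from `A` is,
up to powers of `A`, the product of the left factors of a strong shift equivalence. -/
theorem result {n m : ℕ} (A : Matrix (Fin n) (Fin n) ℕ) (B : Matrix (Fin m) (Fin m) ℕ)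
    (hA : ∀ u, (∀ j : ℕ, (A ^ j) u u ≤ 1) ∨ ∀ k : ℕ, 2 ≤ k →
      ∃ (v : ℤ → Fin n) (e : ℤ → ℕ), (∀ i, e i < A (v i) (v (i + 1))) ∧
        (∃ a b : ℕ, 0 < (A ^ a) u (v 0) ∧ 0 < (A ^ b) (v 0) u) ∧
        ∀ j : ℤ, (∀ i, v (i + j) = v i ∧ e (i + j) = e i) ↔
          ((k * Nat.setGcd {j : ℕ | 0 < (A ^ j) u u} : ℕ) : ℤ) ∣ j)
    (l : ℕ) (R : Matrix (Fin n) (Fin m) ℕ) (S : Matrix (Fin m) (Fin n) ℕ) (hl : 1 ≤ l)
    (h1 : A ^ l = R * S) (h2 : B ^ l = S * R) (h3 : A * R = R * B) (h4 : S * A = B * S) :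
    ∃ (T : Matrix (Fin n) (Fin m) ℕ) (a b : ℕ),
      Relation.TransGen
        (fun X Y : (Σ k : ℕ, Matrix (Fin k) (Fin k) ℕ × Matrix (Fin n) (Fin k) ℕ) =>
          ∃ (R' : Matrix (Fin X.1) (Fin Y.1) ℕ) (S' : Matrix (Fin Y.1) (Fin X.1) ℕ),
            X.2.1 = R' * S' ∧ Y.2.1 = S' * R' ∧ Y.2.2 = X.2.2 * R')
        ⟨n, A, 1⟩ ⟨m, B, T⟩ ∧ A ^ a * R = A ^ b * T := by
  obtain ⟨T, c, a, b, e⟩ := Pool.Agent.MP_993212_an.H18.real_all hA hl h1 h2 h3 h4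
  refine ⟨T, a, b, ?_, Pool.Agent.MP_993212_an.H16.zz_inj ?_⟩
  · simpa using Pool.Agent.MP_993212_an.H18.ch_fin c m (Equiv.refl _)
  · simpa only [Pool.Agent.MP_993212_an.H16.zz_mul, Pool.Agent.MP_993212_an.H16.zz_pow] using e

end Pool.Agent.Results.MP_993212_an.WilliamsAllPeriods
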